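import Mathlib
import Pool.Agent.Lib.helper6.Lor

set_option autoImplicit false

namespace Pool.Agent.Results.MP_55c352_al.Counter

open Filter Topology Projectivization Matrix Pool.Agent.Lib.helper6.Lor Asymptotics

variable {n : ℕ}

/-- `x` is a limit direction -/
def LimitDir (B : Matrix (Fin n) (Fin n) ℝ) (x : PV n) : Prop :=
  ∃ (p : PV n) (g : ℕ → W B), (Function.Injective fun k => (g k).1 • p) ∧
    Tendsto (fun k => (g k).1 • p) atTop (𝓝 x)

/-- `x` arises through powers of `w` -/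
def ViaPowers (w : (Fin n → ℝ) ≃ₗ[ℝ] (Fin n → ℝ)) (x : PV n) : Prop :=
  ∃ (p : PV n) (k : ℕ → ℤ), StrictMono k ∧ (Function.Injective fun j => w ^ k j • p) ∧
    Tendsto (fun j => w ^ k j • p) atTop (𝓝 x)

lemma main {w : _} (hw : w ∈ W B0) {z : Fin 3 → ℝ} (hz : z ≠ 0) {k : ℕ → ℕ} (hk : StrictMono k)
    (inj : ∀ i j (t : ℝ), t • (w ^ k i) z = (w ^ k j) z → i = j) {t : ℕ → ℝ}
    (lim : Tendsto (fun j => t j • (w ^ k j) z) atTop (𝓝 (c (2 * √2) 1 0))) : False := by
  have pw := fun j => pres (pow_mem hw (k j))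
  let Bd : (Fin 3 → ℝ) → Prop := fun v => (fun j => (w ^ k j) v) =O[atTop] fun _ => (1 : ℝ)
  have b1 : ∀ u v, Bd u → Bd v → Bd (u + v) := fun u v h1 h2 => by simpa [Bd] using h1.add h2
  have b2 : ∀ (a : ℝ) v, Bd v → Bd (a • v) := fun a v h => by simpa [Bd] using h.const_smul_left a
  have b3 : ∀ v, Bd v → Bd (w v) := fun v h =>
    ((w.toLinearMap.toContinuousLinearMap.isBigO_comp _ _).trans h).congr_left fun j => by
      simp [← LinearEquiv.mul_apply, pow_mul_comm']
  have L0 : ¬ ∀ v, Bd v := fun h => by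
    let b : Fin 3 → Fin 3 → ℝ := ![c (1 : ℤ) (0 : ℤ) (0 : ℤ), c (0 : ℤ) (1 : ℤ) (0 : ℤ), c (0 : ℤ) (0 : ℤ) (1 : ℤ)]
    obtain ⟨L, hL⟩ := (isBigO_pi.2 fun i => h (b i)).bound
    have f : Function.Injective fun j i => (w ^ k j) (b i) := fun i j e => inj i j 1 (by
      obtain ⟨p, q, r, rfl⟩ := ec z
      have : c p q r = p • b 0 + q • b 1 + r • b 2 := by simp [b, csmul, cadd]
      simp only [this, map_add, map_smul, one_smul, show ∀ a, (w ^ k i) (b a) = _ from congrFun e])
    refine Set.infinite_of_injective_forall_mem (f.comp (add_left_injective (eventually_atTop.1 hL).choose))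
      (fun j => ?_) (Set.Finite.pi' fun _ => fin_int (L * ‖(1 : ℝ)‖))
    refine fun i => ⟨?_, (norm_le_pi_norm _ i).trans ((eventually_atTop.1 hL).choose_spec _ (by simp))⟩
    fin_cases i <;> exact wint (pow_mem hw _) _ _ _
  have L1 : ∀ a b, Bd a → Bd b → toBilin' B0 a a * toBilin' B0 b b - toBilin' B0 a b ^ 2 = 0 := by
    intro a b ha hb
    by_contra D
    have : Bd (cr a b) := by
      refine isBigO_norm_left.1 ((isBigO_norm_left.2 ?_).congr_left fun j => (crw (pow_mem hw _) a b).symm)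
      obtain ⟨A, hA⟩ := (isBigO_one_nat_atTop_iff.1 (ha.prod_left hb))
      obtain ⟨C, hC⟩ := ((isCompact_closedBall 0 A).image (f := fun x : (Fin 3 → ℝ) × (Fin 3 → ℝ) =>
        cr x.1 x.2) (by unfold cr c; fun_prop)).isBounded.exists_norm_le
      exact isBigO_one_nat_atTop_iff.2 ⟨C, fun j => hC _ ⟨_, mem_closedBall_zero_iff.2 (hA j), rfl⟩⟩
    refine L0 fun v => ?_
    rw [← inv_smul_smul₀ D v, expand]
    exact b2 _ _ (b1 _ _ (b1 _ _ (b2 _ _ ha) (b2 _ _ hb)) (b2 _ _ this))
  have bz : Bd z := by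
    obtain ⟨L, hL⟩ := bound B0 lim (by simp [cform]) fun j => (congrArg _ (pw j z z)).le
    exact .of_bound L (by simpa using hL)
  have sy : ∀ x y, toBilin' B0 x y = toBilin' B0 y x := fun x y => by
    obtain ⟨p, q, r, rfl⟩ := ec x
    obtain ⟨p', q', r', rfl⟩ := ec y
    rw [cform, cform]; ring
  have lq : Tendsto (fun j => t j * (t j * toBilin' B0 z z)) atTop (𝓝 1) := by
    have : Tendsto (fun j => toBilin' B0 (t j • (w ^ k j) z) (t j • (w ^ k j) z)) atTop
        (𝓝 (toBilin' B0 (c (2 * √2) 1 0) (c (2 * √2) 1 0))) := by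
      simp only [toBilin'_apply]
      exact (Continuous.tendsto (f := fun x : Fin 3 → ℝ => ∑ i, ∑ j, x i * B0 i j * x j)
        (by fun_prop) _).comp lim
    simpa [pw, cform] using this
  have β0 : toBilin' B0 z z ≠ 0 := fun e => by simp [e] at lq
  obtain ⟨ε, e1, e2⟩ : ∃ ε : ℝ, ε * ε = 1 ∧ toBilin' B0 z (w z) = ε * toBilin' B0 z z := by
    have := L1 _ _ bz (b3 _ bz)
    rw [pres hw] at this
    exact ⟨toBilin' B0 z (w z) / toBilin' B0 z z, by field_simp; linarith, by field_simp⟩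
  have eig : ∀ (u : Fin 3 → ℝ) (a : ℝ), w u = a • u → ∀ m : ℕ, (w ^ m) u = a ^ m • u := by
    intro u a h m
    induction m with
    | zero => simp
    | succ m ih => rw [pow_succ', LinearEquiv.mul_apply, ih, map_smul, h, smul_smul, pow_succ]
  have ε1 : |ε| = 1 := by rw [← sq_eq_sq₀ (abs_nonneg _) zero_le_one, sq_abs]; linarith
  have ε0 : ε ≠ 0 := by rintro rfl; simp at e1
  obtain ⟨e, he⟩ : ∃ e, w z = ε • z + e := ⟨w z - ε • z, by simp⟩
  have e0 : e ≠ 0 := by
    rintro rfl
    refine absurd (inj 0 1 (ε ^ k 1 / ε ^ k 0) ?_) (by simp)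
    rw [eig z ε (by simpa using he), eig z ε (by simpa using he), smul_smul]
    congr 1; field_simp
  have ze : toBilin' B0 z e = 0 := by simpa [he] using e2
  have ee : toBilin' B0 e e = 0 := by
    have := pres hw z z
    simp only [he, map_add, map_smul, LinearMap.add_apply, LinearMap.smul_apply, smul_eq_mul, ze,
      sy e z] at this
    linear_combination this - toBilin' B0 z z * e1
  have be : Bd e := by simpa [he] using b1 _ _ (b3 _ bz) (b2 (-ε) _ bz)
  obtain ⟨μ, hμ⟩ := par e0 ee ((pres hw e e).trans ee)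
    (by simpa [ee] using L1 _ _ be (b3 _ be))
  have n0 := norm_pos_iff.2 e0
  have kt := hk.tendsto_atTop
  by_cases m1 : μ = ε
  · subst m1
    have : ∀ m : ℕ, (w ^ m) z = μ ^ m • (z + (m * μ) • e) := fun m => by
      induction m with
      | zero => simp
      | succ m ih =>
        rw [pow_succ', LinearEquiv.mul_apply, ih, map_smul, map_add, map_smul, he, hμ]
        match_scalars
        · ring
        · linear_combination -μ ^ m * e1
    obtain ⟨L, hL⟩ := isBigO_one_nat_atTop_iff.1 bz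
    obtain ⟨j, hj⟩ := ((tendsto_natCast_atTop_atTop (R := ℝ).comp kt).eventually_gt_atTop
      ((L + ‖z‖) / ‖e‖)).exists
    have h1 := hL j
    have h2 := norm_sub_le (z + (k j * μ) • e) z
    simp only [this, norm_smul, Real.norm_eq_abs, abs_pow, ε1, one_pow, one_mul, add_sub_cancel_left,
      abs_mul, Nat.abs_cast, mul_one] at h1 h2
    rw [div_lt_iff₀ n0, Function.comp] at hj
    linarith
  have d0 : μ - ε ≠ 0 := sub_ne_zero.2 m1
  set u := z - (μ - ε)⁻¹ • e with hu
  have wu : w u = ε • u := by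
    rw [hu, map_sub, map_smul, he, hμ]
    match_scalars <;> field_simp <;> ring
  have wz : ∀ m : ℕ, (w ^ m) z = ε ^ m • u + (μ ^ m * (μ - ε)⁻¹) • e := fun m => by
    rw [← eig u ε wu, mul_comm, mul_smul, ← eig e μ hμ, ← map_smul, ← map_add, hu, sub_add_cancel]
  rcases lt_trichotomy |μ| 1 with m | m | m
  · have s0 : Tendsto (fun j => t j * μ ^ k j) atTop (𝓝 0) := by
      have p := (tendsto_pow_atTop_nhds_zero_of_abs_lt_one m).comp kt
      have := (Real.continuous_sqrt.tendsto _).comp ((lq.mul (p.mul p)).mul_const (toBilin' B0 z z)⁻¹)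
      rw [tendsto_zero_iff_abs_tendsto_zero]
      rw [mul_zero, mul_zero, zero_mul, Real.sqrt_zero] at this
      refine this.congr fun j => ?_
      simp only [Function.comp, ← Real.sqrt_sq_eq_abs]
      congr 1; field_simp
    have wx := tendsto_nhds_unique (((w.toLinearMap.continuous_of_finiteDimensional.tendsto _).comp
      lim).sub (lim.const_smul ε)) ((s0.smul_const e).congr fun j => by
        simp only [Function.comp, wz, LinearEquiv.coe_coe, map_smul, map_add, wu, hμ]
        match_scalars <;> field_simp <;> ring)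
    obtain ⟨a, b, f, d, D, h⟩ := act hw
    have ir : ∀ x y : ℤ, x * √2 = y → x = 0 := fun x y h => by_contra fun c =>
      ((irrational_sqrt_two.intCast_mul c).ne_int y) h
    rw [zero_smul, sub_eq_zero, LinearEquiv.coe_coe, h, csmul, cinj] at wx
    obtain rfl : f = 0 := (pow_eq_zero_iff two_ne_zero).1 (ir (f ^ 2) (-f * d) (by push_cast; linarith [wx.2.2]))
    obtain ⟨ε, rfl⟩ : ∃ n : ℤ, ε = n := by
      rcases eq_or_eq_neg_of_abs_eq ε1 with rfl | rfl
      exacts [⟨1, by simp⟩, ⟨-1, by simp⟩]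
    have h1 := ir (a ^ 2 - ε) (-a * b) (by push_cast; linarith [wx.1])
    have h2 : (a * b : ℝ) = 0 := by
      have : (a ^ 2 - ε : ℝ) = 0 := by exact_mod_cast h1
      linear_combination wx.1 / 2 - √2 * this
    obtain rfl : b = 0 := by
      rcases mul_eq_zero.1 h2 with h | h
      · simp_all
      · exact_mod_cast h
    obtain ⟨p, q, r, rfl⟩ := ec e
    have D' : ((a : ℝ) * d) ^ 2 = 1 := by exact_mod_cast (by simpa using D : (a * d) ^ 2 = 1)
    have a1 : (a : ℝ) ^ 2 = 1 ∧ (d : ℝ) ^ 2 = 1 := by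
      have : IsUnit (a * d) := .of_pow_eq_one (by simpa using D : (a * d) ^ 2 = 1) two_ne_zero
      exact_mod_cast And.intro (Int.isUnit_sq (isUnit_of_mul_isUnit_left this))
        (Int.isUnit_sq (isUnit_of_mul_isUnit_right this))
    rw [h, csmul, cinj] at hμ
    have : (1 - μ ^ 2) ≠ 0 := by nlinarith [abs_lt.1 m]
    refine e0 (c0 ▸ cinj.2 ⟨?_, ?_, ?_⟩) <;> apply mul_left_cancel₀ this <;> grind
  · have : μ = -ε := (abs_eq_abs.1 (m.trans ε1.symm)).resolve_left m1
    obtain ⟨i, j, ij, h⟩ := Finite.exists_ne_map_eq_of_infinite fun j => Even (k j)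
    refine ij (inj i j 1 ?_)
    have h' : (-1 : ℝ) ^ k i = (-1) ^ k j := by simp only [neg_one_pow_eq_ite, h]
    rcases eq_or_eq_neg_of_abs_eq ε1 with rfl | rfl <;> simp [wz, this, h']
  · obtain ⟨L, hL⟩ := isBigO_one_nat_atTop_iff.1 be
    obtain ⟨j, hj⟩ := (((tendsto_pow_atTop_atTop_of_one_lt m).comp kt).eventually_gt_atTop
      (L / ‖e‖)).exists
    have := hL j
    rw [eig e μ hμ, norm_smul, norm_pow] at this
    rw [div_lt_iff₀ n0] at hj
    exact this.not_gt hj

theorem result : ∃ (M : CoxeterMatrix (Fin 3)) (B : Matrix (Fin 3) (Fin 3) ℝ),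
    IsCox M B ∧ Lorentzian B ∧ ∃ (x : Fin 3 → ℝ) (hx : x ≠ 0), 0 < toBilin' B x x ∧
      LimitDir B (mk ℝ x hx) ∧ ∀ w ∈ W B, ¬ ViaPowers w (mk ℝ x hx) := by
  obtain ⟨θ, h⟩ := baire √2
  refine ⟨M0, B0, cox.1, cox.2, _, _, by simp [cform], ⟨_, h⟩, ?_⟩
  rintro w hw ⟨p, k, hk, inj, lim⟩
  induction p using Projectivization.ind with | h z hz => ?_
  have e : ∀ j, (w ^ k j) z = (w ^ (k j - k 0).toNat) ((w ^ k 0) z) := fun j => by
    rw [← LinearEquiv.mul_apply, ← zpow_natCast, ← _root_.zpow_add,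
      Int.toNat_of_nonneg (sub_nonneg.2 (hk.monotone j.zero_le)), sub_add_cancel]
  obtain ⟨t, ht⟩ := seq (u := fun j => (w ^ k j) z) lim
  refine main hw (z := (w ^ k 0) z) (by simpa using hz) (k := fun j => (k j - k 0).toNat)
    (fun i j ij => ?_) (fun i j t h => ?_) (ht.congr fun j => by rw [e])
  · have := hk ij
    have := hk.monotone i.zero_le
    dsimp only
    omega
  · rw [← e, ← e] at h
    exact (inj ((mk_eq_mk_iff' ..).2 ⟨t, h⟩)).symm

end Pool.Agent.Results.MP_55c352_al.Counter
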